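import Pool.Agent.Y575.LD.Defs

/-!
# The ladder property makes the space a Dowker space
-/

set_option autoImplicit false

namespace Pool.Agent.Y338.LD

open Pool.Agent.Y575.LD
open Cardinal Set Topology

lemma cIic (g : W1) : (Iic g).Countable := by
  have h1 : (Iio g).Countable := by
    rw [Cardinal.countable_iff_lt_aleph_one]
    exact mk_Iio_toType_ord_lt g
  have h2 : Iic g ⊆ insert g (Iio g) := by
    intro x hx
    rcases eq_or_lt_of_le (show x ≤ g from hx) with h | h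
    · exact Or.inl h
    · exact Or.inr h
  exact (h1.insert g).mono h2

lemma unc : ¬ (univ : Set W1).Countable := by
  rw [Cardinal.countable_iff_lt_aleph_one, Cardinal.mk_univ]
  simp

lemma bdd_seq (g : ℕ → W1) : ∃ γ, ∀ n, g n < γ := by
  by_contra h
  push Not at h
  apply unc
  have h1 : (univ : Set W1) ⊆ ⋃ n, Iic (g n) := by
    intro x _
    obtain ⟨n, hn⟩ := h x
    exact mem_iUnion.mpr ⟨n, hn⟩
  exact (countable_iUnion fun n => cIic (g n)).mono h1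

/-- the level `n` of a set -/
def Lv (H : Set (W1 × ℕ)) (n : ℕ) : Set W1 := {a | (a, n) ∈ H}

section

variable {L : W1 → ℕ → W1} {τ : TopologicalSpace (W1 × ℕ)}

lemma step (hT : Top L τ) (hL : ∀ A B : Set W1, ∀ m, Unb A → Unb B →
    ∃ l, IsLad (L l) l ∧ InfHit (L l) m A ∧ InfHit (L l) m B) {H : Set (W1 × ℕ)}
    (hH : IsClosed H) {n : ℕ} (hn : Unb (Lv H n)) : Unb (Lv H (n + 1)) := by
  intro γ
  have h1 : Unb (Lv H n ∩ Ioi γ) := by
    intro g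
    obtain ⟨a, ha, hga⟩ := hn (max g γ)
    exact ⟨a, ⟨ha, lt_of_le_of_lt (le_max_right _ _) hga⟩, lt_of_le_of_lt (le_max_left _ _) hga⟩
  obtain ⟨l, hl, hit, -⟩ := hL _ _ n h1 h1
  refine ⟨l, ?_, ?_⟩
  · refine hT.lim l n hl H hH fun N => ?_
    obtain ⟨j, h2, h3, h4⟩ := hit N
    exact ⟨j, h2, h3, h4.1⟩
  · obtain ⟨j, -, -, h4⟩ := hit 0
    exact lt_trans h4.2 (hl.2.1 j)

lemma levels (hT : Top L τ) (hL : ∀ A B : Set W1, ∀ m, Unb A → Unb B →
    ∃ l, IsLad (L l) l ∧ InfHit (L l) m A ∧ InfHit (L l) m B) {H : Set (W1 × ℕ)}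
    (hH : IsClosed H) (hu : ∀ g, ∃ x ∈ H, g < x.1) : ∃ n, ∀ m, n ≤ m → Unb (Lv H m) := by
  have h1 : ∃ n, Unb (Lv H n) := by
    by_contra hc
    push Not at hc
    have h2 : ∀ n, ∃ g, ∀ a ∈ Lv H n, a ≤ g := by
      intro n
      have := hc n
      unfold Unb at this
      push Not at this
      exact this
    choose g hg using h2
    obtain ⟨γ, hγ⟩ := bdd_seq g
    obtain ⟨x, hx, hxγ⟩ := hu γ
    have h3 := hg x.2 x.1 (by exact hx)
    exact absurd (lt_of_le_of_lt h3 (hγ x.2)) (not_lt.mpr hxγ.le)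
  obtain ⟨n, hn⟩ := h1
  refine ⟨n, fun m hm => ?_⟩
  induction m, hm using Nat.le_induction with
  | base => exact hn
  | succ m _ ih => exact step hT hL hH ih

lemma meet (hT : Top L τ) (hL : ∀ A B : Set W1, ∀ m, Unb A → Unb B →
    ∃ l, IsLad (L l) l ∧ InfHit (L l) m A ∧ InfHit (L l) m B) {H K : Set (W1 × ℕ)}
    (hH : IsClosed H) (hK : IsClosed K) (hu : ∀ g, ∃ x ∈ H, g < x.1)
    (hv : ∀ g, ∃ x ∈ K, g < x.1) : ∃ x, x ∈ H ∧ x ∈ K := by
  obtain ⟨n, hn⟩ := levels hT hL hH hu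
  obtain ⟨m, hm⟩ := levels hT hL hK hv
  obtain ⟨l, hl, h1, h2⟩ := hL _ _ (max n m) (hn _ (le_max_left n m)) (hm _ (le_max_right n m))
  exact ⟨(l, max n m + 1), hT.lim l _ hl H hH h1, hT.lim l _ hl K hK h2⟩

lemma sep (hT : Top L τ) {H K : Set (W1 × ℕ)} (hH : IsClosed H) (hK : IsClosed K)
    (hd : Disjoint H K) {γ : W1} (hγ : ∀ x ∈ H, x.1 ≤ γ) : SeparatedNhds H K := by
  haveI := hT.reg
  set Z : Set (W1 × ℕ) := {x : W1 × ℕ | x.1 ≤ γ} with hZ
  have hZc : IsClopen Z := hT.clop γ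
  have hcnt : Z.Countable := by
    have : Z = Iic γ ×ˢ (univ : Set ℕ) := by
      ext x; simp [hZ]
    rw [this]
    exact (cIic γ).prod countable_univ
  haveI : Countable Z := hcnt.to_subtype
  obtain ⟨U, V, hU, hV, hHU, hKV, hUV⟩ := NormalSpace.normal (X := Z)
    (((↑) : Z → W1 × ℕ) ⁻¹' H) (((↑) : Z → W1 × ℕ) ⁻¹' K)
    (hH.preimage continuous_subtype_val) (hK.preimage continuous_subtype_val)
    (hd.preimage _)
  have ho := hZc.isOpen.isOpenMap_subtype_val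
  refine ⟨((↑) : Z → W1 × ℕ) '' U, (((↑) : Z → W1 × ℕ) '' V) ∪ Zᶜ, ho U hU,
    (ho V hV).union hZc.isClosed.isOpen_compl, ?_, ?_, ?_⟩
  · intro x hx
    exact ⟨⟨x, hγ x hx⟩, hHU hx, rfl⟩
  · intro x hx
    by_cases hz : x ∈ Z
    · exact Or.inl ⟨⟨x, hz⟩, hKV hx, rfl⟩
    · exact Or.inr hz
  · rw [Set.disjoint_left]
    rintro x ⟨a, ha, rfl⟩ (⟨b, hb, hab⟩ | hc)
    · have : b = a := Subtype.ext hab
      subst this
      exact Set.disjoint_left.mp hUV ha hb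
    · exact hc a.2

end

theorem nor : S_NOR := by
  intro L τ hT hL
  refine ⟨⟨hT.t1, ⟨?_⟩, ?_⟩, ?_⟩
  · intro H K hH hK hd
    by_cases h1 : ∀ g, ∃ x ∈ H, g < x.1
    · by_cases h2 : ∀ g, ∃ x ∈ K, g < x.1
      · obtain ⟨x, hx1, hx2⟩ := meet hT hL hH hK h1 h2
        exact absurd hx2 (Set.disjoint_left.mp hd hx1)
      · push Not at h2
        obtain ⟨γ, hγ⟩ := h2
        exact (sep hT hK hH hd.symm hγ).symm
    · push Not at h1
      obtain ⟨γ, hγ⟩ := h1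
      exact sep hT hH hK hd hγ
  · intro hcp
    set D : ℕ → Set (W1 × ℕ) := fun n => {x | n ≤ x.2} with hD
    have hDc : ∀ n, IsClosed (D n) := hT.lev
    obtain ⟨v, hv1, hv2, hv3, hv4⟩ := hcp (fun n => (D n)ᶜ) (fun n => (hDc n).isOpen_compl) (by
      rw [Set.eq_univ_iff_forall]
      intro x
      refine mem_iUnion.mpr ⟨x.2 + 1, ?_⟩
      simp [hD])
    set U : ℕ → Set (W1 × ℕ) := fun n => ⋃₀ {s ∈ v | ¬ s ⊆ (D n)ᶜ} with hUdef
    have hUo : ∀ n, IsOpen (U n) := fun n => isOpen_sUnion fun s hs => hv1 s hs.1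
    have hDU : ∀ n, D n ⊆ U n := by
      intro n x hx
      have : x ∈ ⋃₀ v := by rw [hv2]; trivial
      obtain ⟨s, hs, hxs⟩ := this
      exact ⟨s, ⟨hs, fun h => h hxs hx⟩, hxs⟩
    have hDu : ∀ n, ∀ g : W1, ∃ x ∈ D n, g < x.1 := by
      intro n g
      obtain ⟨γ, hγ⟩ := bdd_seq (fun _ => g)
      exact ⟨(γ, n), le_refl n, hγ 0⟩
    have hb : ∀ n, ∃ γ : W1, ∀ x ∈ (U n)ᶜ, x.1 ≤ γ := by
      intro n
      by_contra hc
      push Not at hc
      obtain ⟨x, hx1, hx2⟩ := meet hT hL (hUo n).isClosed_compl (hDc n) hc (hDu n)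
      exact hx1 (hDU n hx2)
    choose g hg using hb
    obtain ⟨γ, hγ⟩ := bdd_seq g
    have hx : ∀ n, ((γ, 0) : W1 × ℕ) ∈ U n := by
      intro n
      by_contra hc
      exact absurd (hγ n) (not_lt.mpr (hg n (γ, 0) hc))
    obtain ⟨t, ht, hfin⟩ := hv4 (γ, 0)
    have hN : ∃ N, ∀ s ∈ {s ∈ v | (s ∩ t).Nonempty}, s ⊆ (D N)ᶜ := by
      have hanti : ∀ n m, n ≤ m → (D n)ᶜ ⊆ (D m)ᶜ := by
        intro n m hnm x hx hx2
        exact hx (le_trans hnm hx2)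
      choose! f hf using hv3
      obtain ⟨N, hN⟩ := (hfin.image f).bddAbove
      refine ⟨N, fun s hs => ?_⟩
      exact (hf s hs.1).trans (hanti _ _ (hN (mem_image_of_mem f hs)))
    obtain ⟨N, hN⟩ := hN
    obtain ⟨s, ⟨hs1, hs2⟩, hs3⟩ := hx N
    exact hs2 (hN s ⟨hs1, ⟨(γ, 0), hs3, mem_of_mem_nhds ht⟩⟩)
  · rw [Cardinal.mk_prod]
    simp only [Cardinal.mk_ord_toType, Cardinal.lift_id, Cardinal.mk_nat, Cardinal.lift_aleph0]
    exact Cardinal.aleph_mul_aleph0 1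

end Pool.Agent.Y338.LD
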